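import Pool.Agent.Y612.TwDefs

/-!
# Constraint satisfaction along a host graph, monotone circuits
-/

set_option autoImplicit false

namespace Pool.Agent.Y612

/-- The inputs of the constraint satisfaction problem: `x (u, v, a, b)` says that the pair of values
`(a, b)` is permitted for the pair of adjacent vertices `(u, v)`. -/
abbrev CIn (V D : Type) : Type := V × V × D × D

/-- There are values in `D` for the vertices of `G` such that all pairs of values on the edges of `G`
are permitted. -/
def Sat {V : Type} (G : SimpleGraph V) (D : Type) (x : CIn V D → Bool) : Prop :=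
  ∃ c : V → D, ∀ u v, G.Adj u v → x (u, v, c u, c v) = true

/-- The function is constant, an input bit, or in the list. -/
def Avail {I : Type} (L : List ((I → Bool) → Bool)) (f : (I → Bool) → Bool) : Prop :=
  (∃ b, f = fun _ => b) ∨ (∃ i, f = fun x => x i) ∨ f ∈ L

/-- A monotone circuit with fan-in two: the list of the functions computed by its gates, the last
gate first. -/
inductive MCirc (I : Type) : List ((I → Bool) → Bool) → Prop
  | nil : MCirc I []
  | and {L : List ((I → Bool) → Bool)} {f g : (I → Bool) → Bool} : MCirc I L → Avail L f →
      Avail L g → MCirc I ((fun x => f x && g x) :: L)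
  | or {L : List ((I → Bool) → Bool)} {f g : (I → Bool) → Bool} : MCirc I L → Avail L f →
      Avail L g → MCirc I ((fun x => f x || g x) :: L)

/-- A real circuit with the input bits `Inp` and the gates `0, ..., s - 1`. Gate `i` has `w i`
inputs, namely `a i j`, each an input bit (`0` or `1`) or an earlier gate, and its value on the
input `x` is `val x i`. The gates outside `T` compute nondecreasing functions of at most two real
numbers. The output of a gate `i` in `T` depends in an arbitrary way on the bits that tell whether
`θ i j` is at most the `j`-th input (a NOT gate, for instance). The circuit accepts if the value of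
gate `out` is at least `τ`. -/
structure RealCircuit (Inp : Type) where
  s : ℕ
  T : Finset (Fin s)
  w : Fin s → ℕ
  a : (i : Fin s) → Fin (w i) → Inp ⊕ Fin s
  op : (i : Fin s) → (Fin (w i) → ℝ) → ℝ
  θ : (i : Fin s) → Fin (w i) → ℝ
  val : (Inp → Bool) → Fin s → ℝ
  out : Fin s
  τ : ℝ
  earlier : ∀ i j k, a i j = Sum.inr k → k < i
  mono : ∀ i ∉ T, w i ≤ 2 ∧ Monotone (op i)
  free : ∀ i ∈ T, ∀ z z' : Fin (w i) → ℝ, (∀ j, θ i j ≤ z j ↔ θ i j ≤ z' j) → op i z = op i z'
  spec : ∀ x i, val x i = op i (fun j =>
    Sum.elim (fun p => if x p = true then (1 : ℝ) else 0) (val x) (a i j))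

/-- The size: the number of gates plus the number of inputs of the gates in `T`. -/
def RealCircuit.size {Inp : Type} (C : RealCircuit Inp) : ℕ := C.s + ∑ i ∈ C.T, C.w i

/-- The product of the numbers `w i + 1` over the gates in `T`. It is `1` for monotone circuits and
`2 ^ t` if `T` consists of `t` NOT gates. -/
def RealCircuit.freedom {Inp : Type} (C : RealCircuit Inp) : ℕ := ∏ i ∈ C.T, (C.w i + 1)

/-- The circuit accepts the input. -/
def RealCircuit.Accepts {Inp : Type} (C : RealCircuit Inp) (x : Inp → Bool) : Prop :=
  C.τ ≤ C.val x C.out

end Pool.Agent.Y612
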