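import Mathlib

/-!
# Monotone formulas, treewidth, minors
-/

set_option autoImplicit false

namespace Pool.Agent.Y612

/-- Monotone formulas in the variables `I`. -/
inductive Fml (I : Type) : Type
  | var (i : I)
  | const (b : Bool)
  | and (f g : Fml I)
  | or (f g : Fml I)

/-- the value -/
def Fml.eval {I : Type} (x : I → Bool) : Fml I → Bool
  | .var i => x i
  | .const b => b
  | .and f g => f.eval x && g.eval x
  | .or f g => f.eval x || g.eval x

/-- the number of leaves -/
def Fml.size {I : Type} : Fml I → ℕ
  | .var _ => 1
  | .const _ => 1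
  | .and f g => f.size + g.size
  | .or f g => f.size + g.size

/-- `G` has a tree decomposition of width at most `w`: a tree `T` and bags covering all vertices and
edges, such that the nodes whose bag contains a given vertex induce a connected subgraph of `T`, all
bags having at most `w + 1` vertices. -/
def TwLE {V : Type} (G : SimpleGraph V) (w : ℕ) : Prop :=
  ∃ (m : ℕ) (T : SimpleGraph (Fin m)) (bag : Fin m → Set V), T.IsTree ∧
    (∀ u v, G.Adj u v → ∃ i, u ∈ bag i ∧ v ∈ bag i) ∧
    (∀ v, (T.induce {i | v ∈ bag i}).Connected) ∧ ∀ i, (bag i).encard ≤ w + 1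

/-- `H` is a minor of `G`: there are pairwise disjoint connected branch sets, one for each vertex of
`H`, with an edge of `G` between any two branch sets belonging to adjacent vertices of `H`. -/
def IsMinor {W V : Type} (H : SimpleGraph W) (G : SimpleGraph V) : Prop :=
  ∃ B : W → Set V, (∀ x, (G.induce (B x)).Connected) ∧
    (∀ x y, x ≠ y → Disjoint (B x) (B y)) ∧
    ∀ x y, H.Adj x y → ∃ u ∈ B x, ∃ v ∈ B y, G.Adj u v

/-- `x` is a digraph whose arcs are along the edges of `G`. -/
def Along {V : Type} (G : SimpleGraph V) (x : V × V → Bool) : Prop :=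
  ∀ u v, x (u, v) = true → G.Adj u v

/-- In the digraph `x` there is a path from `s` to `t`. -/
def Reaches {V : Type} (x : V × V → Bool) (s t : V) : Prop :=
  Relation.ReflTransGen (fun u v => x (u, v) = true) s t

end Pool.Agent.Y612
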