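import Mathlib
import Pool.Agent.H729R3.TreeSep
import Pool.Agent.Y612.TwDefs

/-!
# Monotone formulas for reachability in digraphs of small treewidth
-/

set_option autoImplicit false

namespace Pool.Agent.Y612

open Relation

section

variable {V : Type} [DecidableEq V]

/-- the OR over a list -/
def orL {I : Type} : List (Fml I) → Fml I
  | [] => .const false
  | f :: L => .or f (orL L)

lemma orL_eval {I : Type} (x : I → Bool) (L : List (Fml I)) :
    (orL L).eval x = true ↔ ∃ f ∈ L, f.eval x = true := by
  induction L with
  | nil => simp [orL, Fml.eval]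
  | cons f L ih => simp [orL, Fml.eval, ih]

lemma orL_size {I : Type} (s : ℕ) (L : List (Fml I)) (h : ∀ f ∈ L, f.size ≤ s) :
    (orL L).size ≤ L.length * s + 1 := by
  induction L with
  | nil => simp [orL, Fml.size]
  | cons f L ih =>
    have h1 := h f (List.mem_cons_self)
    have h2 := ih (fun g hg => h g (List.mem_cons_of_mem f hg))
    simp only [orL, Fml.size, List.length_cons]
    have : (L.length + 1) * s = L.length * s + s := by ring
    omega

/-- the formula for an arc or equality -/
def arcF (u v : V) : Fml (V × V) := if u = v then .const true else .var (u, v)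

/-- The formula that looks for paths from `u` to `v` with inner vertices in `A`; `sep` gives the
separators. -/
noncomputable def pathF (sep : Finset V → Finset V × (V → Bool)) :
    ℕ → Finset V → V → V → Fml (V × V)
  | 0, _, u, v => arcF u v
  | D + 1, A, u, v => .or (arcF u v) (.or
      (orL ((sep A).1.toList.map fun z => .and (pathF sep D A u z) (pathF sep D A z v)))
      (.or (pathF sep D (A.filter fun w => w ∉ (sep A).1 ∧ (sep A).2 w = true) u v)
        (pathF sep D (A.filter fun w => w ∉ (sep A).1 ∧ (sep A).2 w = false) u v)))

lemma arcF_size (u v : V) : (arcF u v).size = 1 := by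
  unfold arcF
  split_ifs <;> rfl

lemma pathF_size (sep : Finset V → Finset V × (V → Bool)) (k : ℕ)
    (hsep : ∀ A, (sep A).1.card ≤ k + 1) : ∀ (D : ℕ) (A : Finset V) (u v : V),
    (pathF sep D A u v).size ≤ (2 * k + 6) ^ D := by
  intro D
  induction D with
  | zero =>
    intro A u v
    rw [pathF, arcF_size, pow_zero]
  | succ D ih =>
    intro A u v
    have hpos : 1 ≤ (2 * k + 6) ^ D := Nat.one_le_pow _ _ (by omega)
    have h1 := orL_size (2 * (2 * k + 6) ^ D)
      ((sep A).1.toList.map fun z => .and (pathF sep D A u z) (pathF sep D A z v)) (by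
        intro f hf
        rw [List.mem_map] at hf
        obtain ⟨z, _, rfl⟩ := hf
        simp only [Fml.size]
        have h1 := ih A u z
        have h2 := ih A z v
        omega)
    rw [List.length_map, Finset.length_toList] at h1
    have h2 : (sep A).1.card * (2 * (2 * k + 6) ^ D) ≤ (k + 1) * (2 * (2 * k + 6) ^ D) :=
      Nat.mul_le_mul_right _ (hsep A)
    have h3 := ih (A.filter fun w => w ∉ (sep A).1 ∧ (sep A).2 w = true) u v
    have h4 := ih (A.filter fun w => w ∉ (sep A).1 ∧ (sep A).2 w = false) u v
    have h5 : (2 * k + 6) ^ (D + 1) = (k + 1) * (2 * (2 * k + 6) ^ D) + 4 * (2 * k + 6) ^ D := by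
      rw [pow_succ]; ring
    rw [pathF]
    simp only [Fml.size, arcF_size]
    omega

lemma arcF_sound (x : V × V → Bool) (u v : V) (h : (arcF u v).eval x = true) :
    Reaches x u v := by
  unfold arcF at h
  split_ifs at h with huv
  · rw [huv]
    exact ReflTransGen.refl
  · exact ReflTransGen.single h

lemma pathF_sound (sep : Finset V → Finset V × (V → Bool)) (x : V × V → Bool) :
    ∀ (D : ℕ) (A : Finset V) (u v : V), (pathF sep D A u v).eval x = true → Reaches x u v := by
  intro D
  induction D with
  | zero =>
    intro A u v h
    exact arcF_sound x u v h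
  | succ D ih =>
    intro A u v h
    rw [pathF] at h
    simp only [Fml.eval, Bool.or_eq_true] at h
    rcases h with h | h | h | h
    · exact arcF_sound x u v h
    · rw [orL_eval] at h
      obtain ⟨f, hf, hx⟩ := h
      rw [List.mem_map] at hf
      obtain ⟨z, _, rfl⟩ := hf
      simp only [Fml.eval, Bool.and_eq_true] at hx
      exact (ih A u z hx.1).trans (ih A z v hx.2)
    · exact ih _ u v h
    · exact ih _ u v h

/-- completeness of the formula -/
lemma pathF_complete (adj : V → V → Prop) (sep : Finset V → Finset V × (V → Bool))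
    (hside : ∀ (A : Finset V) (u v : V), u ∈ A → v ∈ A → u ∉ (sep A).1 → v ∉ (sep A).1 → adj u v →
      (sep A).2 u = (sep A).2 v)
    (hbal : ∀ (A : Finset V) (c : Bool), 3 * (A.filter fun w => w ∉ (sep A).1 ∧ (sep A).2 w = c).card ≤ 2 * A.card)
    (x : V × V → Bool) (hx : ∀ u v, x (u, v) = true → adj u v) :
    ∀ (b a D : ℕ) (A : Finset V) (l : ℕ) (f : ℕ → V), 2 * a + 3 * b ≤ D →
      A.card * 2 ^ b < 3 ^ b → l ≤ 2 ^ a → (∀ i < l, x (f i, f (i + 1)) = true) →
      (∀ i, 0 < i → i < l → f i ∈ A) → (pathF sep D A (f 0) (f l)).eval x = true := by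
  have hshort : ∀ (D : ℕ) (A : Finset V) (l : ℕ) (f : ℕ → V), l ≤ 1 →
      (∀ i < l, x (f i, f (i + 1)) = true) → (pathF sep D A (f 0) (f l)).eval x = true := by
    intro D A l f hl hf
    have harc : (arcF (f 0) (f l)).eval x = true := by
      unfold arcF
      split_ifs with h
      · rfl
      · rcases Nat.eq_zero_or_pos l with h0 | h0
        · exact absurd (by rw [h0]) h
        · have : l = 1 := by omega
          subst this
          exact hf 0 (by omega)
    cases D with
    | zero => exact harc
    | succ D =>
      rw [pathF]
      simp only [Fml.eval, Bool.or_eq_true]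
      exact Or.inl harc
  intro b
  induction b with
  | zero =>
    intro a D A l f _ hA _ hf hin
    have hA0 : A = ∅ := by
      rw [← Finset.card_eq_zero]
      simpa using hA
    refine hshort D A l f ?_ hf
    by_contra hcon
    have := hin 1 (by omega) (by omega)
    rw [hA0] at this
    simp at this
  | succ b ihb =>
    intro a
    induction a with
    | zero =>
      intro D A l f _ _ hl hf _
      exact hshort D A l f (by simpa using hl) hf
    | succ a iha =>
      intro D A l f hD hA hl hf hin
      -- a segment that avoids the separator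
      have hseg : ∀ (D' l' : ℕ) (f' : ℕ → V), 2 * (a + 1) + 3 * b + 1 ≤ D' → l' ≤ 2 ^ (a + 1) →
          (∀ i < l', x (f' i, f' (i + 1)) = true) →
          (∀ i, 0 < i → i < l' → f' i ∈ A ∧ f' i ∉ (sep A).1) →
          (pathF sep D' A (f' 0) (f' l')).eval x = true := by
        intro D' l' f' hD' hl' hf' hin'
        rcases Nat.lt_or_ge 1 l' with h1 | h1
        · obtain ⟨D'', rfl⟩ : ∃ D'', D' = D'' + 1 := ⟨D' - 1, by omega⟩
          obtain ⟨c, hc⟩ : ∃ c, c = (sep A).2 (f' 1) := ⟨_, rfl⟩
          have hall : ∀ i, 0 < i → i < l' → (sep A).2 (f' i) = c := by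
            intro i hi
            induction i with
            | zero => omega
            | succ i ihi =>
              intro hil
              rcases Nat.eq_zero_or_pos i with h0 | h0
              · subst h0
                exact hc.symm
              · rw [← ihi h0 (by omega)]
                have e1 := hin' i h0 (by omega)
                have e2 := hin' (i + 1) hi hil
                exact (hside A _ _ e1.1 e2.1 e1.2 e2.2 (hx _ _ (hf' i (by omega)))).symm
          have hcard : (A.filter fun w => w ∉ (sep A).1 ∧ (sep A).2 w = c).card * 2 ^ b <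
              3 ^ b := by
            have h2 := hbal A c
            have h3 : A.card * 2 ^ (b + 1) = (2 * A.card) * 2 ^ b := by rw [pow_succ]; ring
            have h4 : (3 : ℕ) ^ (b + 1) = 3 * 3 ^ b := by rw [pow_succ]; ring
            rw [h3, h4] at hA
            have h5 := Nat.mul_le_mul_right (2 ^ b) h2
            have h6 : 3 * (A.filter fun w => w ∉ (sep A).1 ∧ (sep A).2 w = c).card * 2 ^ b =
              3 * ((A.filter fun w => w ∉ (sep A).1 ∧ (sep A).2 w = c).card * 2 ^ b) := by ring
            omega
          have hrec := ihb (a + 1) D'' (A.filter fun w => w ∉ (sep A).1 ∧ (sep A).2 w = c) l' f'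
            (by omega) hcard hl' hf' (fun i hi hil => by
              rw [Finset.mem_filter]
              exact ⟨(hin' i hi hil).1, (hin' i hi hil).2, hall i hi hil⟩)
          rw [pathF]
          simp only [Fml.eval, Bool.or_eq_true]
          right; right
          cases c with
          | true => exact Or.inl hrec
          | false => exact Or.inr hrec
        · exact hshort D' A l' f' h1 hf'
      -- splitting at a vertex of the separator
      have hsplit : ∀ (D' j l' : ℕ) (f' : ℕ → V), f' j ∈ (sep A).1 →
          (pathF sep D' A (f' 0) (f' j)).eval x = true →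
          (pathF sep D' A (f' j) (f' l')).eval x = true →
          (pathF sep (D' + 1) A (f' 0) (f' l')).eval x = true := by
        intro D' j l' f' hz h1 h2
        rw [pathF]
        simp only [Fml.eval, Bool.or_eq_true]
        right; left
        rw [orL_eval]
        refine ⟨_, List.mem_map.mpr ⟨f' j, Finset.mem_toList.mpr hz, rfl⟩, ?_⟩
        simp only [Fml.eval, Bool.and_eq_true]
        exact ⟨h1, h2⟩
      -- a path which begins in the second half before the first vertex of the separator
      have hlate : ∀ (D' l' c' : ℕ) (f' : ℕ → V), 2 * (a + 1) + 3 * b + 2 ≤ D' →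
          l' ≤ 2 ^ (a + 1) → c' ≤ l' → l' - c' ≤ 2 ^ a →
          (∀ i < l', x (f' i, f' (i + 1)) = true) → (∀ i, 0 < i → i < l' → f' i ∈ A) →
          (∀ i, 0 < i → i < c' → f' i ∉ (sep A).1) →
          (pathF sep D' A (f' 0) (f' l')).eval x = true := by
        intro D' l' c' f' hD' hl' hc' hlc hf' hin' hno
        classical
        by_cases hex : ∃ j, c' ≤ j ∧ 0 < j ∧ j < l' ∧ f' j ∈ (sep A).1
        · obtain ⟨⟨j1, j0, j2, j3⟩, jmin⟩ := And.intro (Nat.find_spec hex)
            (fun i (hi : i < Nat.find hex) => Nat.find_min hex hi)
          obtain ⟨j, hj⟩ : ∃ j, j = Nat.find hex := ⟨_, rfl⟩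
          rw [← hj] at j1 j0 j2 j3 jmin
          obtain ⟨D'', rfl⟩ : ∃ D'', D' = D'' + 1 := ⟨D' - 1, by omega⟩
          refine hsplit D'' j l' f' j3 ?_ ?_
          · refine hseg D'' j f' (by omega) (by omega) (fun i hi => hf' i (by omega))
              (fun i hi hij => ⟨hin' i hi (by omega), ?_⟩)
            rcases Nat.lt_or_ge i c' with h1 | h1
            · exact hno i hi h1
            · intro h2
              exact jmin i hij ⟨h1, hi, by omega, h2⟩
          · have := iha D'' A (l' - j) (fun i => f' (j + i)) (by omega) hA (by omega)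
              (fun i hi => hf' (j + i) (by omega)) (fun i hi hil => hin' (j + i) (by omega)
                (by omega))
            simp only [Nat.add_zero] at this
            rw [show j + (l' - j) = l' by omega] at this
            exact this
        · push Not at hex
          refine hseg D' l' f' (by omega) hl' hf' (fun i hi hil => ⟨hin' i hi hil, ?_⟩)
          rcases Nat.lt_or_ge i c' with h1 | h1
          · exact hno i hi h1
          · exact hex i h1 hi hil
      -- the last vertex of the separator in the first half
      have h2a : 2 ^ (a + 1) = 2 * 2 ^ a := by rw [pow_succ]; ring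
      by_cases hex : ∃ j, 0 < j ∧ j ≤ l / 2 ∧ j < l ∧ f j ∈ (sep A).1
      · classical
        obtain ⟨j, hj, hjmax⟩ : ∃ j, (0 < j ∧ j ≤ l / 2 ∧ j < l ∧ f j ∈ (sep A).1) ∧
            ∀ i, j < i → ¬ (0 < i ∧ i ≤ l / 2 ∧ i < l ∧ f i ∈ (sep A).1) := by
          have hbd : ∀ j, (0 < j ∧ j ≤ l / 2 ∧ j < l ∧ f j ∈ (sep A).1) → j ≤ l :=
            fun j hj => by omega
          refine ⟨Nat.findGreatest (fun j => 0 < j ∧ j ≤ l / 2 ∧ j < l ∧ f j ∈ (sep A).1) l, ?_,
            fun i hi hcon => ?_⟩
          · obtain ⟨j, hj⟩ := hex
            exact Nat.findGreatest_spec (P := fun j => 0 < j ∧ j ≤ l / 2 ∧ j < l ∧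
              f j ∈ (sep A).1) (hbd j hj) hj
          · exact Nat.findGreatest_is_greatest hi (hbd i hcon) hcon
        obtain ⟨j1, j2, j3, j4⟩ := hj
        obtain ⟨D', rfl⟩ : ∃ D', D = D' + 1 := ⟨D - 1, by omega⟩
        refine hsplit D' j l f j4 ?_ ?_
        · exact iha D' A j f (by omega) hA (by omega) (fun i hi => hf i (by omega))
            (fun i hi hij => hin i hi (by omega))
        · have := hlate D' (l - j) (l / 2 + 1 - j) (fun i => f (j + i)) (by omega) (by omega)
            (by omega) (by omega) (fun i hi => hf (j + i) (by omega))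
            (fun i hi hil => hin (j + i) (by omega) (by omega)) (fun i hi hil hc => by
              exact hjmax (j + i) (by omega) ⟨by omega, by omega, by omega, hc⟩)
          simp only [Nat.add_zero] at this
          rw [show j + (l - j) = l by omega] at this
          exact this
      · rcases Nat.lt_or_ge 1 l with hl1 | hl1
        · refine hlate D l (l / 2 + 1) f (by omega) hl (by omega) (by omega) hf hin
            (fun i hi hil hc => ?_)
          exact hex ⟨i, hi, by omega, by omega, hc⟩
        · exact hshort D A l f hl1 hf

end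

end Pool.Agent.Y612
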