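import Mathlib
import Pool.Agent.Y612.TwUp

/-!
# The upper bound
-/

set_option autoImplicit false

namespace Pool.Agent.Y612

open Relation

lemma exists_seq {V : Type} (x : V × V → Bool) {s t : V} (h : Reaches x s t) :
    ∃ (l : ℕ) (f : ℕ → V), f 0 = s ∧ f l = t ∧ ∀ i < l, x (f i, f (i + 1)) = true := by
  induction h with
  | refl => exact ⟨0, fun _ => s, rfl, rfl, fun i hi => absurd hi (Nat.not_lt_zero i)⟩
  | @tail b c _ hbc ih =>
    obtain ⟨l, f, h0, hl, hf⟩ := ih
    refine ⟨l + 1, fun i => if i ≤ l then f i else c, ?_, ?_, fun i hi => ?_⟩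
    · simp [h0]
    · simp
    · rcases Nat.lt_or_ge i l with h1 | h1
      · simp only [show i ≤ l by omega, show i + 1 ≤ l by omega, if_true]
        exact hf i h1
      · have : i = l := by omega
        subst this
        simp only [le_refl, if_true, show ¬ i + 1 ≤ i by omega, if_false, hl]
        exact hbc

lemma short_path {V : Type} [Fintype V] (x : V × V → Bool) {s t : V} (h : Reaches x s t) :
    ∃ l, l < Fintype.card V ∧ ∃ f : ℕ → V, f 0 = s ∧ f l = t ∧
      ∀ i < l, x (f i, f (i + 1)) = true := by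
  classical
  have hex := exists_seq x h
  obtain ⟨l, hl⟩ : ∃ l, l = Nat.find hex := ⟨_, rfl⟩
  have hmin : ∀ l' < l, ¬ ∃ f : ℕ → V, f 0 = s ∧ f l' = t ∧ ∀ i < l', x (f i, f (i + 1)) = true :=
    fun l' hl' => Nat.find_min hex (hl ▸ hl')
  have hspec : ∃ f : ℕ → V, f 0 = s ∧ f l = t ∧ ∀ i < l, x (f i, f (i + 1)) = true := by
    rw [hl]
    exact Nat.find_spec hex
  refine ⟨l, ?_, hspec⟩
  obtain ⟨f, h0, h1, hf⟩ := hspec
  by_contra hcon
  have hlt : Fintype.card V < Fintype.card (Fin (l + 1)) := by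
    rw [Fintype.card_fin]
    omega
  obtain ⟨a, b, hab, hfab⟩ := Fintype.exists_ne_map_eq_of_card_lt
    (fun i : Fin (l + 1) => f i.val) hlt
  obtain ⟨i, j, hij, hjl, hfij⟩ : ∃ i j, i < j ∧ j ≤ l ∧ f i = f j := by
    rcases Nat.lt_or_ge a.val b.val with h2 | h2
    · exact ⟨a.val, b.val, h2, by omega, hfab⟩
    · refine ⟨b.val, a.val, ?_, by omega, hfab.symm⟩
      rcases Nat.eq_or_lt_of_le h2 with h3 | h3
      · exact absurd (Fin.ext h3.symm) hab
      · exact h3
  refine hmin (l - (j - i)) (by omega) ⟨fun m => if m ≤ i then f m else f (m + (j - i)), ?_, ?_,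
    fun m hm => ?_⟩
  · simp [h0]
  · rcases Nat.eq_or_lt_of_le hjl with h2 | h2
    · simp only [show l - (j - i) ≤ i by omega, if_true]
      rw [show l - (j - i) = i by omega, hfij, h2, h1]
    · simp only [show ¬ l - (j - i) ≤ i by omega, if_false]
      rw [show l - (j - i) + (j - i) = l by omega, h1]
  · rcases Nat.lt_trichotomy m i with h2 | h2 | h2
    · simp only [show m ≤ i by omega, show m + 1 ≤ i by omega, if_true]
      exact hf m (by omega)
    · simp only [show m ≤ i by omega, show ¬ m + 1 ≤ i by omega, if_true, if_false]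
      rw [h2, hfij, show i + 1 + (j - i) = j + 1 by omega]
      exact hf j (by omega)
    · simp only [show ¬ m ≤ i by omega, show ¬ m + 1 ≤ i by omega, if_false]
      rw [show m + 1 + (j - i) = m + (j - i) + 1 by omega]
      exact hf _ (by omega)

lemma hasTreeDec_of_twLE {V : Type} [Fintype V] [Nonempty V] {G : SimpleGraph V} {k : ℕ}
    (h : TwLE G k) : Pool.Agent.H729R3.HasTreeDec G.Adj k := by
  classical
  obtain ⟨m, T, bag, hT, hadj, hconn, hcard⟩ := h
  refine Pool.Agent.H729R3.hasTreeDec_of_tree k V G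
    ⟨Fin m, inferInstance, T, fun i => (bag i).toFinset, hT, fun i => ?_, fun v => ?_,
      fun u v huv => ?_, fun v i j hi hj => ?_⟩
  · have h1 := hcard i
    rw [Set.encard_eq_coe_toFinset_card] at h1
    exact_mod_cast h1
  · obtain ⟨⟨i, hi⟩⟩ := (hconn v).nonempty
    exact ⟨i, by simpa using hi⟩
  · obtain ⟨i, h1, h2⟩ := hadj u v huv
    exact ⟨i, by simpa using h1, by simpa using h2⟩
  · rw [Set.mem_toFinset] at hi hj
    obtain ⟨w⟩ := (hconn v).preconnected ⟨i, hi⟩ ⟨j, hj⟩
    have key : ∀ (a b : {i | v ∈ bag i}), (T.induce {i | v ∈ bag i}).Walk a b →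
        ∃ q : T.Walk a.1 b.1, ∀ y ∈ q.support, v ∈ (bag y).toFinset := by
      intro a b w
      induction w with
      | @nil a =>
        refine ⟨SimpleGraph.Walk.nil, fun y hy => ?_⟩
        rw [SimpleGraph.Walk.support_nil, List.mem_singleton] at hy
        rw [hy, Set.mem_toFinset]
        exact a.2
      | @cons a b c hab _ ih =>
        obtain ⟨q, hq⟩ := ih
        refine ⟨SimpleGraph.Walk.cons hab q, fun y hy => ?_⟩
        rw [SimpleGraph.Walk.support_cons, List.mem_cons] at hy
        rcases hy with rfl | hy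
        · rw [Set.mem_toFinset]
          exact a.2
        · exact hq y hy
    exact key _ _ w

/-- The upper bound. -/
theorem tw_upper {V : Type} [Fintype V] {G : SimpleGraph V} {k : ℕ} (h : TwLE G k) (s t : V) :
    ∃ F : Fml (V × V), F.size ≤ (2 * k + 6) ^ (8 * (Nat.log 2 (Fintype.card V) + 1)) ∧
      ∀ x, Along G x → (F.eval x = true ↔ Reaches x s t) := by
  classical
  have : Nonempty V := ⟨s⟩
  have hdec := hasTreeDec_of_twLE h
  have hsep := fun A => Pool.Agent.H729R3.treeDec_separator G.Adj k hdec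
    (fun u v huv => huv.symm) Finset.univ A
  choose S side hS using hsep
  obtain ⟨L, hL⟩ : ∃ L, L = Nat.log 2 (Fintype.card V) := ⟨_, rfl⟩
  rw [← hL]
  refine ⟨pathF (fun A => (S A, side A)) (8 * (L + 1)) Finset.univ s t,
    pathF_size _ k (fun A => (hS A).2.1) _ _ _ _, fun x hx => ⟨pathF_sound _ x _ _ _ _, fun hr => ?_⟩⟩
  obtain ⟨l, hl, f, h0, h1, hf⟩ := short_path x hr
  have hn : Fintype.card V < 2 ^ (L + 1) := by
    rw [hL]
    exact Nat.lt_pow_succ_log_self (by norm_num) _
  rw [← h0, ← h1]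
  refine pathF_complete G.Adj (fun A => (S A, side A)) (fun A u v hu hv hu' hv' huv =>
    (hS A).2.2.1 u v hu hv hu' hv' huv) (fun A c => ?_) x hx (2 * (L + 1)) (L + 1) (8 * (L + 1))
    Finset.univ l f (by omega) ?_ (by omega) hf (fun i _ _ => Finset.mem_univ _)
  · have := (hS A).2.2.2 c
    rw [Finset.inter_univ] at this
    exact this
  · rw [Finset.card_univ]
    calc Fintype.card V * 2 ^ (2 * (L + 1)) < 2 ^ (L + 1) * 2 ^ (2 * (L + 1)) :=
          Nat.mul_lt_mul_of_pos_right hn (by positivity)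
      _ = 8 ^ (L + 1) := by
          rw [pow_mul, ← mul_pow]
          norm_num
      _ ≤ 9 ^ (L + 1) := Nat.pow_le_pow_left (by norm_num) _
      _ = 3 ^ (2 * (L + 1)) := by
          rw [pow_mul]
          norm_num

end Pool.Agent.Y612
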