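import Pool.Agent.H729R3.TreeSep
import Pool.Agent.Y612.TwMain
import Pool.Agent.Y612.CspDefs

/-!
# Constraint satisfaction along a host graph of small treewidth: monotone circuits
-/

set_option autoImplicit false
set_option linter.unusedSectionVars false

namespace Pool.Agent.Y612

open Pool.Agent.H729R3

section circ

variable {I : Type}

abbrev Fn (I : Type) : Type := (I → Bool) → Bool

lemma Avail.mono {L L' : List (Fn I)} (h : L ⊆ L') {f : Fn I} (hf : Avail L f) : Avail L' f := by
  rcases hf with h1 | h1 | h1
  · exact Or.inl h1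
  · exact Or.inr (Or.inl h1)
  · exact Or.inr (Or.inr (h h1))

/-- `f` can be computed with at most `k` further gates -/
def Cost (L0 : List (Fn I)) (f : Fn I) (k : ℕ) : Prop :=
  ∀ L, MCirc I L → L0 ⊆ L → ∃ L', MCirc I L' ∧ L ⊆ L' ∧ L'.length ≤ L.length + k ∧ Avail L' f

lemma Cost.of_avail {L0 : List (Fn I)} {f : Fn I} (h : Avail L0 f) : Cost L0 f 0 :=
  fun L hL hs => ⟨L, hL, List.Subset.refl _, by omega, h.mono hs⟩

lemma Cost.and {L0 : List (Fn I)} {f g : Fn I} {a b : ℕ} (hf : Cost L0 f a) (hg : Cost L0 g b) :
    Cost L0 (fun x => f x && g x) (a + b + 1) := by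
  intro L hL hs
  obtain ⟨L1, h1, h2, h3, h4⟩ := hf L hL hs
  obtain ⟨L2, k1, k2, k3, k4⟩ := hg L1 h1 (List.Subset.trans hs h2)
  refine ⟨_, MCirc.and k1 (h4.mono k2) k4, ?_, ?_, Or.inr (Or.inr (List.mem_cons_self))⟩
  · exact List.Subset.trans (List.Subset.trans h2 k2) (List.subset_cons_self _ _)
  · rw [List.length_cons]
    omega

lemma Cost.or {L0 : List (Fn I)} {f g : Fn I} {a b : ℕ} (hf : Cost L0 f a) (hg : Cost L0 g b) :
    Cost L0 (fun x => f x || g x) (a + b + 1) := by
  intro L hL hs
  obtain ⟨L1, h1, h2, h3, h4⟩ := hf L hL hs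
  obtain ⟨L2, k1, k2, k3, k4⟩ := hg L1 h1 (List.Subset.trans hs h2)
  refine ⟨_, MCirc.or k1 (h4.mono k2) k4, ?_, ?_, Or.inr (Or.inr (List.mem_cons_self))⟩
  · exact List.Subset.trans (List.Subset.trans h2 k2) (List.subset_cons_self _ _)
  · rw [List.length_cons]
    omega

lemma Cost.allL {L0 : List (Fn I)} {k : ℕ} (l : List (Fn I)) (h : ∀ f ∈ l, Cost L0 f k) :
    Cost L0 (fun x => l.all fun f => f x) (l.length * (k + 1)) := by
  induction l with
  | nil =>
    rw [List.length_nil, Nat.zero_mul]
    exact Cost.of_avail (Or.inl ⟨true, by funext x; rfl⟩)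
  | cons f l ih =>
    have h1 := (h f List.mem_cons_self).and (ih (fun g hg => h g (List.mem_cons_of_mem _ hg)))
    rw [List.length_cons]
    have e : (l.length + 1) * (k + 1) = k + l.length * (k + 1) + 1 := by ring
    rw [e]
    exact h1

lemma Cost.anyL {L0 : List (Fn I)} {k : ℕ} (l : List (Fn I)) (h : ∀ f ∈ l, Cost L0 f k) :
    Cost L0 (fun x => l.any fun f => f x) (l.length * (k + 1)) := by
  induction l with
  | nil =>
    rw [List.length_nil, Nat.zero_mul]
    exact Cost.of_avail (Or.inl ⟨false, by funext x; rfl⟩)
  | cons f l ih =>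
    have h1 := (h f List.mem_cons_self).or (ih (fun g hg => h g (List.mem_cons_of_mem _ hg)))
    rw [List.length_cons]
    have e : (l.length + 1) * (k + 1) = k + l.length * (k + 1) + 1 := by ring
    rw [e]
    exact h1

/-- a family of functions -/
lemma Cost.family {σ : Type} {L0 : List (Fn I)} {k : ℕ} (hL0 : MCirc I L0) (l : List σ)
    (F : σ → Fn I) (h : ∀ s ∈ l, Cost L0 (F s) k) :
    ∃ L', MCirc I L' ∧ L0 ⊆ L' ∧ L'.length ≤ L0.length + l.length * k ∧
      ∀ s ∈ l, Avail L' (F s) := by
  induction l with
  | nil => exact ⟨L0, hL0, List.Subset.refl _, by simp, by simp⟩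
  | cons s l ih =>
    obtain ⟨L1, h1, h2, h3, h4⟩ := ih (fun t ht => h t (List.mem_cons_of_mem _ ht))
    obtain ⟨L2, k1, k2, k3, k4⟩ := h s List.mem_cons_self L1 h1 h2
    refine ⟨L2, k1, List.Subset.trans h2 k2, ?_, ?_⟩
    · rw [List.length_cons]
      have e : (l.length + 1) * k = l.length * k + k := by ring
      omega
    · intro t ht
      rcases List.mem_cons.mp ht with rfl | ht
      · exact k4
      · exact (h4 t ht).mono k2

end circ

/-- A vertex whose remaining neighbours in the decomposition are in one bag. -/
lemma exists_simplicial {V : Type} {adj : V → V → Prop} {k : ℕ} (h : HasTreeDec adj k)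
    [DecidableEq V] :
    ∃ Sh : V → V → Prop, (∀ u v, adj u v → Sh u v) ∧ (∀ u v, Sh u v → Sh v u) ∧
      ∀ R : Finset V, R.Nonempty →
      ∃ v ∈ R, ∃ B : Finset V, v ∈ B ∧ B.card ≤ k + 1 ∧ (∀ u ∈ B, ∀ w ∈ B, Sh u w) ∧
        ∀ u ∈ R, Sh u v → u ∈ B := by
  obtain ⟨T, par, bag, hpar, hcard, huniq, hadj⟩ := h
  choose top htop huniq' using huniq
  have htop' : ∀ v j, v ∈ bag j → j ≠ top v → j ≠ 0 ∧ v ∈ bag (par j) := by
    intro v j hj hne
    by_contra hcon
    apply hne
    apply huniq' v j
    refine ⟨hj, ?_⟩
    by_cases h0 : j = 0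
    · exact Or.inl h0
    · right
      intro h1
      exact hcon ⟨h0, h1⟩
  have hle : ∀ v j, v ∈ bag j → top v ≤ j := by
    intro v j
    induction j using WellFoundedLT.induction with
    | _ j ih =>
      intro hj
      by_cases hne : j = top v
      · exact hne.ge
      · obtain ⟨h0, h1⟩ := htop' v j hj hne
        have h2 := hpar j (Fin.pos_iff_ne_zero.mpr h0)
        exact (ih (par j) h2 h1).trans h2.le
  refine ⟨fun u v => ∃ j, u ∈ bag j ∧ v ∈ bag j, hadj, fun u v ⟨j, h1, h2⟩ => ⟨j, h2, h1⟩,
    fun R hR => ?_⟩
  obtain ⟨v, hv, hmax⟩ := Finset.exists_max_image R top hR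
  refine ⟨v, hv, bag (top v), (htop v).1, hcard _, fun u hu w hw => ⟨_, hu, hw⟩, ?_⟩
  rintro u hu ⟨j, hj1, hj2⟩
  have hmu := hmax u hu
  induction j using WellFoundedLT.induction with
  | _ j ih =>
    by_cases hne : j = top v
    · rw [← hne]
      exact hj1
    · obtain ⟨h0, h1⟩ := htop' v j hj2 hne
      have h2 := hpar j (Fin.pos_iff_ne_zero.mpr h0)
      have h3 : j ≠ top u := by
        intro h4
        have h5 := hle v (par j) h1
        rw [← h4] at hmu
        exact absurd (h5.trans_lt h2) (not_lt.mpr hmu)
      exact ih (par j) h2 (htop' u j hj1 h3).2 h1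

section dp

variable {V D : Type} [Fintype V] [DecidableEq V] [Fintype D] [DecidableEq D] [Nonempty D]

/-- factors: a scope and a function -/
structure Fac (V D : Type) where
  S : Finset V
  F : (V → D) → Fn (CIn V D)

/-- a good factor -/
structure Fac.Ok (Sh : V → V → Prop) (L : List (Fn (CIn V D))) (R : Finset V) (f : Fac V D) :
    Prop where
  sub : f.S ⊆ R
  sh : ∀ u ∈ f.S, ∀ w ∈ f.S, Sh u w
  dep : ∀ c c' : V → D, (∀ u ∈ f.S, c u = c' u) → f.F c = f.F c'
  av : ∀ c, Avail L (f.F c)

open Classical in
/-- the function which has to be computed -/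
noncomputable def goal (G : SimpleGraph V) (R : Finset V) (Fs : List (Fac V D)) : Fn (CIn V D) :=
  fun x => decide (∃ c : V → D, (∀ f ∈ Fs, f.F c x = true) ∧
    ∀ u ∈ R, ∀ v ∈ R, G.Adj u v → x (u, v, c u, c v) = true)

/-- factors for the edges between `v` and `B` -/
noncomputable def edgeFacs (G : SimpleGraph V) (v : V) (B : Finset V) : List (Fac V D) :=
  (B.erase v).toList.flatMap fun u =>
    [⟨{u, v}, fun c x => @decide (G.Adj u v → x (u, v, c u, c v) = true) (Classical.dec _)⟩,
     ⟨{u, v}, fun c x => @decide (G.Adj v u → x (v, u, c v, c u) = true) (Classical.dec _)⟩]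

lemma edgeFacs_length (G : SimpleGraph V) (v : V) (B : Finset V) :
    (edgeFacs (D := D) G v B).length = 2 * (B.erase v).card := by
  unfold edgeFacs
  rw [List.length_flatMap]
  simp
  ring

lemma mem_edgeFacs {G : SimpleGraph V} {v : V} {B : Finset V} {f : Fac V D}
    (h : f ∈ edgeFacs G v B) : ∃ u ∈ B, u ≠ v ∧
      (f = ⟨{u, v}, fun c x => @decide (G.Adj u v → x (u, v, c u, c v) = true) (Classical.dec _)⟩ ∨
       f = ⟨{u, v}, fun c x => @decide (G.Adj v u → x (v, u, c v, c u) = true) (Classical.dec _)⟩) := by
  unfold edgeFacs at h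
  rw [List.mem_flatMap] at h
  obtain ⟨u, hu, hf⟩ := h
  rw [Finset.mem_toList, Finset.mem_erase] at hu
  refine ⟨u, hu.2, hu.1, ?_⟩
  simpa using hf

/-- the function of the new factor -/
noncomputable def newF (v : V) (all : List (Fac V D)) (c : V → D) : Fn (CIn V D) :=
  fun x => ((Finset.univ : Finset D).toList.map fun a : D =>
    (fun x => (all.map fun f => f.F (Function.update c v a)).all fun g => g x : Fn (CIn V D))).any
      fun g => g x

lemma newF_iff (v : V) (all : List (Fac V D)) (c : V → D) (x : CIn V D → Bool) :
    newF v all c x = true ↔ ∃ a, ∀ f ∈ all, f.F (Function.update c v a) x = true := by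
  unfold newF
  rw [List.any_eq_true]
  constructor
  · rintro ⟨g, hg, hx⟩
    rw [List.mem_map] at hg
    obtain ⟨a, -, rfl⟩ := hg
    rw [List.all_eq_true] at hx
    refine ⟨a, fun f hf => hx _ ?_⟩
    rw [List.mem_map]
    exact ⟨f, hf, rfl⟩
  · rintro ⟨a, ha⟩
    refine ⟨_, List.mem_map.mpr ⟨a, by simp, rfl⟩, ?_⟩
    rw [List.all_eq_true]
    intro g hg
    rw [List.mem_map] at hg
    obtain ⟨f, hf, rfl⟩ := hg
    exact ha f hf

lemma newF_cost {L : List (Fn (CIn V D))} (v : V) (all : List (Fac V D))
    (h : ∀ f ∈ all, ∀ c, Avail L (f.F c)) (c : V → D) :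
    Cost L (newF v all c) (Fintype.card D * (all.length + 1)) := by
  have h1 := Cost.anyL (L0 := L) (k := all.length)
    ((Finset.univ : Finset D).toList.map fun a : D =>
      (fun x => (all.map fun f => f.F (Function.update c v a)).all fun g => g x :
        Fn (CIn V D))) (by
      intro g hg
      rw [List.mem_map] at hg
      obtain ⟨a, -, rfl⟩ := hg
      have h2 := Cost.allL (L0 := L) (k := 0) (all.map fun f => f.F (Function.update c v a)) (by
        intro g hg
        rw [List.mem_map] at hg
        obtain ⟨f, hf, rfl⟩ := hg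
        exact Cost.of_avail (h f hf _))
      rw [List.length_map, zero_add, Nat.mul_one] at h2
      exact h2)
  rw [List.length_map, Finset.length_toList, Finset.card_univ] at h1
  exact h1

lemma dp_main {G : SimpleGraph V} {k : ℕ} {Sh : V → V → Prop} (hSh : ∀ u v, G.Adj u v → Sh u v)
    (hsymm : ∀ u v, Sh u v → Sh v u)
    (hsimp : ∀ R : Finset V, R.Nonempty → ∃ v ∈ R, ∃ B : Finset V, v ∈ B ∧ B.card ≤ k + 1 ∧
      (∀ u ∈ B, ∀ w ∈ B, Sh u w) ∧ ∀ u ∈ R, Sh u v → u ∈ B) :
    ∀ (n : ℕ) (R : Finset V), R.card = n → ∀ (Fs : List (Fac V D)) (L : List (Fn (CIn V D))),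
      MCirc (CIn V D) L → (∀ f ∈ Fs, f.Ok Sh L R) →
      ∃ L', MCirc (CIn V D) L' ∧
        L'.length ≤ L.length + (Fs.length + 2 * (k + 1) * n) * Fintype.card D ^ (k + 1) ∧
        Avail L' (goal G R Fs) := by
  classical
  have hq : 0 < Fintype.card D := Fintype.card_pos
  intro n
  induction n with
  | zero =>
    intro R hR Fs L hL hFs
    rw [Finset.card_eq_zero] at hR
    subst hR
    have hc0 : ∀ f ∈ Fs, ∀ c c' : V → D, f.F c = f.F c' := by
      intro f hf c c'
      refine (hFs f hf).dep c c' (fun u hu => ?_)
      exact absurd ((hFs f hf).sub hu) (Finset.notMem_empty u)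
    have c0 : V → D := fun _ => Classical.arbitrary D
    have h1 := Cost.allL (L0 := L) (k := 0) (Fs.map fun f => f.F c0) (by
      intro g hg
      rw [List.mem_map] at hg
      obtain ⟨f, hf, rfl⟩ := hg
      exact Cost.of_avail ((hFs f hf).av _))
    obtain ⟨L', k1, k2, k3, k4⟩ := h1 L hL (List.Subset.refl _)
    refine ⟨L', k1, ?_, ?_⟩
    · rw [List.length_map] at k3
      have h2 : 1 ≤ Fintype.card D ^ (k + 1) := Nat.one_le_pow _ _ hq
      calc L'.length ≤ L.length + Fs.length * (0 + 1) := k3
        _ ≤ L.length + (Fs.length + 2 * (k + 1) * 0) * Fintype.card D ^ (k + 1) := by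
            apply Nat.add_le_add_left
            exact Nat.mul_le_mul (by omega) h2
    · convert k4 using 1
      funext x
      rw [Bool.eq_iff_iff]
      simp only [goal, decide_eq_true_iff, List.all_eq_true, List.mem_map,
        forall_exists_index, and_imp, forall_apply_eq_imp_iff₂]
      constructor
      · rintro ⟨c, hc, -⟩ f hf
        rw [hc0 f hf c0 c]
        exact hc f hf
      · intro h
        exact ⟨c0, h, fun u hu => absurd hu (Finset.notMem_empty u)⟩
  | succ n ih =>
    intro R hR Fs L hL hFs
    have hne : R.Nonempty := by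
      rw [← Finset.card_pos]
      omega
    obtain ⟨v, hv, B0, hvB0, hB0, hB0c, hB0s⟩ := hsimp R hne
    obtain ⟨B, hBdef⟩ : ∃ B, B = B0 ∩ R := ⟨_, rfl⟩
    have hvB : v ∈ B := by
      rw [hBdef]
      exact Finset.mem_inter.mpr ⟨hvB0, hv⟩
    have hBc : B.card ≤ k + 1 := by
      rw [hBdef]
      exact (Finset.card_le_card Finset.inter_subset_left).trans hB0
    have hBR : B ⊆ R := by
      rw [hBdef]
      exact Finset.inter_subset_right
    have hBsh : ∀ u ∈ B, ∀ w ∈ B, Sh u w := by
      intro u hu w hw
      rw [hBdef] at hu hw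
      exact hB0c u (Finset.mem_inter.mp hu).1 w (Finset.mem_inter.mp hw).1
    have hBs : ∀ u ∈ R, Sh u v → u ∈ B := by
      intro u hu h
      rw [hBdef]
      exact Finset.mem_inter.mpr ⟨hB0s u hu h, hu⟩
    set Fs1 := Fs.filter (fun f => v ∈ f.S) with hFs1
    set Fs2 := Fs.filter (fun f => ¬ v ∈ f.S) with hFs2
    have hlen : Fs1.length + Fs2.length = Fs.length := by
      rw [hFs1, hFs2]
      have := List.length_eq_length_filter_add (l := Fs) (fun f => decide (v ∈ f.S))
      simpa using this.symm
    set all := Fs1 ++ edgeFacs G v B with hall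
    have hallen : all.length ≤ Fs1.length + 2 * k := by
      rw [hall, List.length_append, edgeFacs_length, Finset.card_erase_of_mem hvB]
      omega
    -- the scopes
    have hallS : ∀ f ∈ all, f.S ⊆ B := by
      intro f hf
      rw [hall, List.mem_append] at hf
      rcases hf with hf | hf
      · rw [hFs1, List.mem_filter, decide_eq_true_iff] at hf
        intro u hu
        exact hBs u ((hFs f hf.1).sub hu) ((hFs f hf.1).sh u hu v hf.2)
      · obtain ⟨u, hu, -, h | h⟩ := mem_edgeFacs hf
        · rw [h]
          intro w hw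
          rcases Finset.mem_insert.mp hw with rfl | hw
          · exact hu
          · rw [Finset.mem_singleton.mp hw]
            exact hvB
        · rw [h]
          intro w hw
          rcases Finset.mem_insert.mp hw with rfl | hw
          · exact hu
          · rw [Finset.mem_singleton.mp hw]
            exact hvB
    have halldep : ∀ f ∈ all, ∀ c c' : V → D, (∀ u ∈ f.S, c u = c' u) → f.F c = f.F c' := by
      intro f hf
      rw [hall, List.mem_append] at hf
      rcases hf with hf | hf
      · rw [hFs1, List.mem_filter] at hf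
        exact (hFs f hf.1).dep
      · obtain ⟨u, hu, -, h | h⟩ := mem_edgeFacs hf
        · subst h
          intro c c' hc
          simp only at hc ⊢
          rw [hc u (by simp), hc v (by simp)]
        · subst h
          intro c c' hc
          simp only at hc ⊢
          rw [hc u (by simp), hc v (by simp)]
    have hallav : ∀ f ∈ all, ∀ c, Avail L (f.F c) := by
      intro f hf
      rw [hall, List.mem_append] at hf
      rcases hf with hf | hf
      · rw [hFs1, List.mem_filter] at hf
        exact (hFs f hf.1).av
      · obtain ⟨u, hu, -, h | h⟩ := mem_edgeFacs hf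
        · subst h
          intro c
          by_cases hadj : G.Adj u v
          · right; left
            refine ⟨(u, v, c u, c v), ?_⟩
            funext x
            rw [Bool.eq_iff_iff]
            simp [hadj]
          · left
            refine ⟨true, ?_⟩
            funext x
            simp [hadj]
        · subst h
          intro c
          by_cases hadj : G.Adj v u
          · right; left
            refine ⟨(v, u, c v, c u), ?_⟩
            funext x
            rw [Bool.eq_iff_iff]
            simp [hadj]
          · left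
            refine ⟨true, ?_⟩
            funext x
            simp [hadj]
    -- the new gates
    set a0 : D := Classical.arbitrary D with ha0
    set ext : ({w // w ∈ B.erase v} → D) → V → D := fun s w =>
      if h : w ∈ B.erase v then s ⟨w, h⟩ else a0 with hext
    obtain ⟨L1, m1, m2, m3, m4⟩ := Cost.family hL
      (Finset.univ : Finset ({w // w ∈ B.erase v} → D)).toList
      (fun s => newF v all (ext s)) (k := Fintype.card D * (all.length + 1))
      (fun s _ => newF_cost v all hallav (ext s))
    have hnewdep : ∀ c c' : V → D, (∀ u ∈ B.erase v, c u = c' u) → newF v all c = newF v all c' := by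
      intro c c' hc
      funext x
      rw [Bool.eq_iff_iff, newF_iff, newF_iff]
      have key : ∀ a, ∀ f ∈ all, f.F (Function.update c v a) = f.F (Function.update c' v a) := by
        intro a f hf
        refine halldep f hf _ _ (fun u hu => ?_)
        by_cases huv : u = v
        · rw [huv, Function.update_self, Function.update_self]
        · rw [Function.update_of_ne huv, Function.update_of_ne huv]
          exact hc u (Finset.mem_erase.mpr ⟨huv, hallS f hf hu⟩)
      constructor
      · rintro ⟨a, ha⟩
        exact ⟨a, fun f hf => by rw [← key a f hf]; exact ha f hf⟩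
      · rintro ⟨a, ha⟩
        exact ⟨a, fun f hf => by rw [key a f hf]; exact ha f hf⟩
    have hnewav : ∀ c, Avail L1 (newF v all c) := by
      intro c
      have h1 := m4 (fun w => c w.1) (by simp)
      have h2 : newF v all (ext fun w => c w.1) = newF v all c := by
        apply hnewdep
        intro u hu
        simp only [hext, dif_pos hu]
      rw [h2] at h1
      exact h1
    set nf : Fac V D := ⟨B.erase v, newF v all⟩ with hnf
    have hRc : (R.erase v).card = n := by
      rw [Finset.card_erase_of_mem hv]
      omega
    obtain ⟨L', p1, p2, p3⟩ := ih (R.erase v) hRc (nf :: Fs2) L1 m1 (by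
      intro f hf
      rcases List.mem_cons.mp hf with rfl | hf
      · refine ⟨Finset.erase_subset_erase v hBR, ?_, hnewdep, hnewav⟩
        intro u hu w hw
        exact hBsh u (Finset.mem_of_mem_erase hu) w (Finset.mem_of_mem_erase hw)
      · rw [hFs2, List.mem_filter, decide_eq_true_iff] at hf
        have h1 := hFs f hf.1
        refine ⟨fun u hu => Finset.mem_erase.mpr ⟨?_, h1.sub hu⟩, h1.sh, h1.dep,
          fun c => (h1.av c).mono m2⟩
        rintro rfl
        exact hf.2 hu)
    refine ⟨L', p1, ?_, ?_⟩
    · -- the number of gates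
      rw [List.length_cons] at p2
      have h1 : (Finset.univ : Finset ({w // w ∈ B.erase v} → D)).toList.length =
          Fintype.card D ^ (B.erase v).card := by
        rw [Finset.length_toList, Finset.card_univ, Fintype.card_fun, Fintype.card_coe]
      rw [h1] at m3
      have h2 : Fintype.card D ^ (B.erase v).card * (Fintype.card D * (all.length + 1)) ≤
          (Fs1.length + 2 * k + 1) * Fintype.card D ^ (k + 1) := by
        calc Fintype.card D ^ (B.erase v).card * (Fintype.card D * (all.length + 1)) ≤
              Fintype.card D ^ k * (Fintype.card D * (Fs1.length + 2 * k + 1)) := by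
              apply Nat.mul_le_mul
              · apply Nat.pow_le_pow_right hq
                rw [Finset.card_erase_of_mem hvB]
                omega
              · apply Nat.mul_le_mul_left
                omega
          _ = (Fs1.length + 2 * k + 1) * Fintype.card D ^ (k + 1) := by ring
      have h3 : (Fs2.length + 1 + 2 * (k + 1) * n) * Fintype.card D ^ (k + 1) +
          (Fs1.length + 2 * k + 1) * Fintype.card D ^ (k + 1) =
          (Fs.length + 2 * (k + 1) * (n + 1)) * Fintype.card D ^ (k + 1) := by
        rw [← hlen]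
        ring
      omega
    · -- the function
      convert p3 using 1
      funext x
      rw [Bool.eq_iff_iff]
      simp only [goal, decide_eq_true_iff]
      constructor
      · rintro ⟨c, hc1, hc2⟩
        refine ⟨c, ?_, ?_⟩
        · intro f hf
          rcases List.mem_cons.mp hf with rfl | hf
          · simp only [hnf]
            rw [newF_iff]
            refine ⟨c v, fun g hg => ?_⟩
            rw [Function.update_eq_self]
            rw [hall, List.mem_append] at hg
            rcases hg with hg | hg
            · rw [hFs1, List.mem_filter] at hg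
              exact hc1 g hg.1
            · obtain ⟨u, hu, -, h | h⟩ := mem_edgeFacs hg
              · subst h
                simp only [decide_eq_true_iff]
                exact hc2 u (hBR hu) v hv
              · subst h
                simp only [decide_eq_true_iff]
                exact hc2 v hv u (hBR hu)
          · rw [hFs2, List.mem_filter] at hf
            exact hc1 f hf.1
        · intro u hu w hw
          exact hc2 u (Finset.mem_of_mem_erase hu) w (Finset.mem_of_mem_erase hw)
      · rintro ⟨c, hc1, hc2⟩
        have h1 := hc1 nf List.mem_cons_self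
        simp only [hnf] at h1
        rw [newF_iff] at h1
        obtain ⟨a, ha⟩ := h1
        refine ⟨Function.update c v a, ?_, ?_⟩
        · intro f hf
          by_cases hvf : v ∈ f.S
          · refine ha f ?_
            rw [hall, List.mem_append]
            left
            rw [hFs1, List.mem_filter]
            exact ⟨hf, by simpa using hvf⟩
          · have h2 : f.F (Function.update c v a) = f.F c := by
              refine (hFs f hf).dep _ _ (fun u hu => ?_)
              rw [Function.update_of_ne]
              rintro rfl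
              exact hvf hu
            rw [h2]
            refine hc1 f (List.mem_cons_of_mem _ ?_)
            rw [hFs2, List.mem_filter]
            exact ⟨hf, by simpa using hvf⟩
        · intro u hu w hw huw
          have hsub : ∀ g ∈ edgeFacs G v B, g.F (Function.update c v a) x = true := by
            intro g hg
            refine ha g ?_
            rw [hall, List.mem_append]
            exact Or.inr hg
          by_cases huv : u = v
          · subst huv
            have hwv : w ≠ u := huw.ne'
            have hwB : w ∈ B := hBs w hw (hsymm _ _ (hSh _ _ huw))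
            have h2 := hsub ⟨{w, u}, fun c x => @decide (G.Adj u w → x (u, w, c u, c w) = true)
              (Classical.dec _)⟩ (by
                unfold edgeFacs
                rw [List.mem_flatMap]
                exact ⟨w, by rw [Finset.mem_toList]; exact Finset.mem_erase.mpr ⟨hwv, hwB⟩, by simp⟩)
            simp only [decide_eq_true_iff] at h2
            exact h2 huw
          · by_cases hwv : w = v
            · subst hwv
              have huB : u ∈ B := hBs u hu (hSh _ _ huw)
              have h2 := hsub ⟨{u, w}, fun c x => @decide (G.Adj u w → x (u, w, c u, c w) = true)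
                (Classical.dec _)⟩ (by
                  unfold edgeFacs
                  rw [List.mem_flatMap]
                  exact ⟨u, by rw [Finset.mem_toList]; exact Finset.mem_erase.mpr ⟨huv, huB⟩, by simp⟩)
              simp only [decide_eq_true_iff] at h2
              exact h2 huw
            · rw [Function.update_of_ne huv, Function.update_of_ne hwv]
              exact hc2 u (Finset.mem_erase.mpr ⟨huv, hu⟩) w (Finset.mem_erase.mpr ⟨hwv, hw⟩) huw

end dp

/-- the upper bound, from a rooted tree decomposition -/
theorem csp_upper' {V : Type} [Fintype V] {G : SimpleGraph V} {k : ℕ} (h : HasTreeDec G.Adj k)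
    (q : ℕ) (hq : 0 < q) :
    ∃ L : List (Fn (CIn V (Fin q))), MCirc (CIn V (Fin q)) L ∧
      L.length ≤ 2 * (k + 1) * Fintype.card V * q ^ (k + 1) ∧
      ∃ f, Avail L f ∧ ∀ x, f x = true ↔ Sat G (Fin q) x := by
  classical
  have : Nonempty (Fin q) := ⟨⟨0, hq⟩⟩
  obtain ⟨Sh, h1, h2, h3⟩ := exists_simplicial h
  obtain ⟨L, k1, k2, k3⟩ := dp_main (D := Fin q) (G := G) h1 h2 h3 (Fintype.card V) Finset.univ
    Finset.card_univ [] [] MCirc.nil (by simp)
  refine ⟨L, k1, ?_, _, k3, fun x => ?_⟩
  · rw [Fintype.card_fin] at k2
    simpa using k2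
  · simp only [goal, decide_eq_true_iff, Sat]
    constructor
    · rintro ⟨c, -, hc⟩
      exact ⟨c, fun u v huv => hc u (Finset.mem_univ u) v (Finset.mem_univ v) huv⟩
    · rintro ⟨c, hc⟩
      exact ⟨c, by simp, fun u _ v _ huv => hc u v huv⟩

/-- the upper bound -/
theorem csp_upper {V : Type} [Fintype V] {G : SimpleGraph V} {k : ℕ} (h : TwLE G k) (q : ℕ) :
    ∃ L : List (Fn (CIn V (Fin q))), MCirc (CIn V (Fin q)) L ∧
      L.length ≤ 2 * (k + 1) * Fintype.card V * q ^ (k + 1) ∧
      ∃ f, Avail L f ∧ ∀ x, f x = true ↔ Sat G (Fin q) x := by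
  classical
  rcases isEmpty_or_nonempty V with hV | hV
  · refine ⟨[], MCirc.nil, by simp, fun _ => true, Or.inl ⟨true, rfl⟩, fun x => ?_⟩
    simp only [true_iff]
    exact ⟨fun v => (hV.false v).elim, fun v => (hV.false v).elim⟩
  rcases Nat.eq_zero_or_pos q with hq | hq
  · subst hq
    refine ⟨[], MCirc.nil, by simp, fun _ => false, Or.inl ⟨false, rfl⟩, fun x => ?_⟩
    simp only [Bool.false_eq_true, false_iff]
    rintro ⟨c, -⟩
    exact (c (Classical.arbitrary V)).elim0
  · exact csp_upper' (hasTreeDec_of_twLE h) q hq

/-- a decomposition of the grid -/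
lemma grid_dec (K : ℕ) (hK : 0 < K) : HasTreeDec
    ((SimpleGraph.pathGraph K).boxProd (SimpleGraph.pathGraph K)).Adj K := by
  classical
  have hpos : 0 < K * K := Nat.mul_pos hK hK
  obtain ⟨T, hT⟩ : ∃ T, T + 1 = K * K := ⟨K * K - 1, by omega⟩
  have hidx : ∀ p : Fin K × Fin K, p.1.val * K + p.2.val < K * K := by
    intro p
    have h1 := p.1.isLt
    have h2 := p.2.isLt
    calc p.1.val * K + p.2.val < p.1.val * K + K := by omega
      _ = (p.1.val + 1) * K := by ring
      _ ≤ K * K := Nat.mul_le_mul_right _ h1
  refine ⟨T, fun i => ⟨i.val - 1, by have := i.isLt; omega⟩,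
    fun i => Finset.univ.filter fun p => i.val ≤ p.1.val * K + p.2.val ∧
      p.1.val * K + p.2.val ≤ i.val + K, ?_, ?_, ?_, ?_⟩
  · intro i hi
    rw [Fin.lt_def] at hi ⊢
    simp only [Fin.val_zero] at hi
    simp only
    omega
  · intro i
    have h1 : (Finset.univ.filter fun p : Fin K × Fin K => i.val ≤ p.1.val * K + p.2.val ∧
        p.1.val * K + p.2.val ≤ i.val + K).card ≤ (Finset.Icc i.val (i.val + K)).card := by
      apply Finset.card_le_card_of_injOn (fun p => p.1.val * K + p.2.val)
      · intro p hp
        rw [Finset.mem_coe, Finset.mem_filter] at hp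
        rw [Finset.mem_coe, Finset.mem_Icc]
        exact hp.2
      · intro p _ p' _ h
        simp only at h
        have h2 := p.2.isLt
        have h3 := p'.2.isLt
        have h4 := congrArg (· / K) h
        have h5 := congrArg (· % K) h
        simp only [Nat.mul_comm _ K, Nat.mul_add_div hK, Nat.mul_add_mod,
          Nat.div_eq_of_lt h2, Nat.div_eq_of_lt h3, Nat.mod_eq_of_lt h2, Nat.mod_eq_of_lt h3,
          add_zero] at h4 h5
        exact Prod.ext (Fin.ext h4) (Fin.ext h5)
    rw [Nat.card_Icc] at h1
    exact h1.trans (by omega)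
  · intro p
    have h0 := hidx p
    refine ⟨⟨p.1.val * K + p.2.val - K, by omega⟩, ?_, ?_⟩
    · simp only [Finset.mem_filter, Finset.mem_univ, true_and, Fin.ext_iff, Fin.val_zero]
      omega
    · rintro ⟨i, hi⟩ ⟨h1, h2⟩
      simp only [Finset.mem_filter, Finset.mem_univ, true_and, Fin.ext_iff, Fin.val_zero] at h1 h2 ⊢
      omega
  · intro p p' h
    rw [SimpleGraph.boxProd_adj, SimpleGraph.pathGraph_adj, SimpleGraph.pathGraph_adj] at h
    have h1 := hidx p
    have h2 := hidx p'
    rcases h with ⟨h | h, h'⟩ | ⟨h | h, h'⟩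
    · refine ⟨⟨p.1.val * K + p.2.val, by omega⟩, ?_, ?_⟩
      · simp only [Finset.mem_filter, Finset.mem_univ, true_and]
        omega
      · simp only [Finset.mem_filter, Finset.mem_univ, true_and]
        rw [← h, ← h', Nat.add_mul]
        omega
    · refine ⟨⟨p'.1.val * K + p'.2.val, by omega⟩, ?_, ?_⟩
      · simp only [Finset.mem_filter, Finset.mem_univ, true_and]
        rw [← h, h', Nat.add_mul]
        omega
      · simp only [Finset.mem_filter, Finset.mem_univ, true_and]
        omega
    · refine ⟨⟨p.1.val * K + p.2.val, by omega⟩, ?_, ?_⟩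
      · simp only [Finset.mem_filter, Finset.mem_univ, true_and]
        omega
      · simp only [Finset.mem_filter, Finset.mem_univ, true_and]
        rw [← h, ← h']
        omega
    · refine ⟨⟨p'.1.val * K + p'.2.val, by omega⟩, ?_, ?_⟩
      · simp only [Finset.mem_filter, Finset.mem_univ, true_and]
        rw [← h, h']
        omega
      · simp only [Finset.mem_filter, Finset.mem_univ, true_and]
        omega

end Pool.Agent.Y612
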